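import Pool.Agent.P8H39.TI.Stm6

/-!
# Package HFU of project TI, part six (MP_d97b4e_co)
-/

set_option autoImplicit false

namespace Pool.Agent.P8H65.TI

open Finset Pool.Agent.P8H39.TI

theorem sup_card (n k r : ℕ) (R : Finset (Fin n)) (hR : R.card = r) (hrk : r ≤ k) :
    ((slice n k).filter (fun A => R ⊆ A)).card = (n - r).choose (k - r) := by
  have himg : ((slice n k).filter (fun A => R ⊆ A)) =
      (powersetCard (k - r) Rᶜ).image (fun B => R ∪ B) := by
    ext A
    simp only [mem_filter, mem_powersetCard, subset_univ, true_and, mem_image]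
    constructor
    · rintro ⟨h1, h2⟩
      refine ⟨A \ R, ⟨?_, ?_⟩, ?_⟩
      · intro x hx
        rw [mem_sdiff] at hx
        exact mem_compl.2 hx.2
      · rw [card_sdiff_of_subset h2]; omega
      · exact union_sdiff_of_subset h2
    · rintro ⟨B, ⟨h1, h2⟩, rfl⟩
      refine ⟨?_, subset_union_left⟩
      have hd : Disjoint R B := by
        rw [disjoint_left]
        intro x hx hxB
        exact (mem_compl.1 (h1 hxB)) hx
      rw [card_union_of_disjoint hd, hR, h2]; omega
  rw [himg, card_image_of_injOn, card_powersetCard, card_compl, Fintype.card_fin, hR]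
  intro B hB B' hB' h
  have hB1 := (mem_powersetCard.1 (mem_coe.1 hB)).1
  have hB2 := (mem_powersetCard.1 (mem_coe.1 hB')).1
  have h' : R ∪ B = R ∪ B' := h
  ext x
  constructor
  · intro hx
    have : x ∈ R ∪ B' := by rw [← h']; exact mem_union_right _ hx
    rcases mem_union.1 this with h3 | h3
    · exact absurd h3 (mem_compl.1 (hB1 hx))
    · exact h3
  · intro hx
    have : x ∈ R ∪ B := by rw [h']; exact mem_union_right _ hx
    rcases mem_union.1 this with h3 | h3
    · exact absurd h3 (mem_compl.1 (hB2 hx))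
    · exact h3

theorem filt_sub {n k : ℕ} {F : Finset (Finset (Fin n))} (hF : ∀ A ∈ F, A.card = k)
    (R : Finset (Fin n)) :
    F.filter (fun A => R ⊆ A) ⊆ (slice n k).filter (fun A => R ⊆ A) := by
  intro A hA
  rw [mem_filter] at hA ⊢
  exact ⟨mem_powersetCard.2 ⟨subset_univ _, hF A hA.1⟩, hA.2⟩

theorem mem_of_full {n k r : ℕ} {F : Finset (Finset (Fin n))} (hF : ∀ A ∈ F, A.card = k)
    {R : Finset (Fin n)} (hR : R.card = r) (hrk : r ≤ k)
    (hfull : deg F R = (n - r).choose (k - r)) {B : Finset (Fin n)} (hB : B.card = k)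
    (hRB : R ⊆ B) : B ∈ F := by
  have heq : F.filter (fun A => R ⊆ A) = (slice n k).filter (fun A => R ⊆ A) := by
    apply eq_of_subset_of_card_le (filt_sub hF R)
    rw [sup_card n k r R hR hrk]
    exact hfull.ge
  have hm : B ∈ (slice n k).filter (fun A => R ⊆ A) :=
    mem_filter.2 ⟨mem_powersetCard.2 ⟨subset_univ _, hB⟩, hRB⟩
  rw [← heq] at hm
  exact (mem_filter.1 hm).1

theorem t_HFU : S_HFU := by
  intro n k t r F htr hrk hkn hT
  obtain ⟨hF, hI⟩ := hT
  refine ⟨?_, ⟨?_, ?_⟩, ?_⟩
  · intro R hR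
    calc deg F R ≤ ((slice n k).filter (fun A => R ⊆ A)).card := card_le_card (filt_sub hF R)
      _ = _ := sup_card n k r R hR hrk.le
  · intro A hA
    exact (mem_powersetCard.1 (mem_filter.1 hA).1).2
  · intro R hR R' hR'
    obtain ⟨hR1, hR2⟩ := mem_filter.1 hR
    obtain ⟨hR1', hR2'⟩ := mem_filter.1 hR'
    have hc : R.card = r := (mem_powersetCard.1 hR1).2
    have hc' : R'.card = r := (mem_powersetCard.1 hR1').2
    have hu : (R ∪ R').card ≤ 2 * r := by
      have := card_union_le R R'
      omega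
    obtain ⟨X, hX, hXc⟩ : ∃ X ⊆ (R ∪ R')ᶜ, X.card = k - r := by
      apply exists_subset_card_eq
      rw [card_compl, Fintype.card_fin]; omega
    obtain ⟨Y, hY, hYc⟩ : ∃ Y ⊆ (R ∪ R' ∪ X)ᶜ, Y.card = k - r := by
      apply exists_subset_card_eq
      rw [card_compl, Fintype.card_fin]
      have := card_union_le (R ∪ R') X
      omega
    have hXR : ∀ x ∈ X, x ∉ R ∧ x ∉ R' := by
      intro x hx
      have := mem_compl.1 (hX hx)
      rw [mem_union, not_or] at this
      exact this
    have hYR : ∀ x ∈ Y, x ∉ R ∧ x ∉ R' ∧ x ∉ X := by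
      intro x hx
      have := mem_compl.1 (hY hx)
      rw [mem_union, mem_union, not_or, not_or] at this
      exact ⟨this.1.1, this.1.2, this.2⟩
    have hA : R ∪ X ∈ F := by
      apply mem_of_full hF hc hrk.le hR2 _ subset_union_left
      rw [card_union_of_disjoint (disjoint_left.2 (fun x hx hx' => (hXR x hx').1 hx)), hc, hXc]
      omega
    have hB : R' ∪ Y ∈ F := by
      apply mem_of_full hF hc' hrk.le hR2' _ subset_union_left
      rw [card_union_of_disjoint (disjoint_left.2 (fun x hx hx' => (hYR x hx').2.1 hx)), hc', hYc]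
      omega
    refine (hI _ hA _ hB).trans (card_le_card ?_)
    intro x hx
    obtain ⟨h1, h2⟩ := mem_inter.1 hx
    rw [mem_union] at h1 h2
    rcases h1 with h1 | h1 <;> rcases h2 with h2 | h2
    · exact mem_inter.2 ⟨h1, h2⟩
    · exact absurd h1 (hYR x h2).1
    · exact absurd h2 (hXR x h1).2
    · exact absurd h1 (hYR x h2).2.2
  · intro T hTc hfull A hA
    by_contra hTA
    have hAc := hF A hA
    obtain ⟨Z, hZ, hZc⟩ : ∃ Z ⊆ (A ∪ T)ᶜ, Z.card = k - t := by
      apply exists_subset_card_eq
      rw [card_compl, Fintype.card_fin]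
      have := card_union_le A T
      omega
    have hZ' : ∀ x ∈ Z, x ∉ A ∧ x ∉ T := by
      intro x hx
      have := mem_compl.1 (hZ hx)
      rw [mem_union, not_or] at this
      exact this
    have hBc : (T ∪ Z).card = k := by
      rw [card_union_of_disjoint (disjoint_left.2 (fun x hx hx' => (hZ' x hx').2 hx)), hTc, hZc]
      omega
    obtain ⟨R, hTR, hRB, hRc⟩ : ∃ R : Finset (Fin n), T ⊆ R ∧ R ⊆ T ∪ Z ∧ R.card = r := by
      apply exists_subsuperset_card_eq subset_union_left <;> omega
    have hB : T ∪ Z ∈ F := mem_of_full hF hRc hrk.le (hfull R hRc hTR) hBc hRB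
    have h1 := hI A hA _ hB
    have h2 : A ∩ (T ∪ Z) ⊂ T := by
      rw [ssubset_iff_subset_ne]
      refine ⟨?_, ?_⟩
      · intro x hx
        obtain ⟨h3, h4⟩ := mem_inter.1 hx
        rcases mem_union.1 h4 with h4 | h4
        · exact h4
        · exact absurd h3 (hZ' x h4).1
      · intro h
        apply hTA
        rw [← h]
        exact inter_subset_left
    have h3 := card_lt_card h2
    omega

end Pool.Agent.P8H65.TI
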